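import Pool.Agent.PRP.Stmts
import Pool.Agent.Helper55_DDQ.Quartic
import Pool.Agent.Helper12_DDS.SchBir

/-!
# Squad PRP, row AFF: the theorem for affine models
-/

set_option autoImplicit false

open scoped TensorProduct

noncomputable section

namespace Pool.Agent.PRP.H95

open MvPolynomial Pool.Agent.PRP

theorem aff_aux (hTRL : DDQ.TrlStmt) (hCOR : CorStmt) : AffStmt := by
  intro k _ _ r I hI L M _ _ _ _ _ φ s n t hφ hφk hgen hdom hs hn hind hfin d hD P hP
  obtain ⟨x0, hx0, hx0P⟩ := hP
  have : IsDomain (MvPolynomial (Fin r) k ⧸ I) := Ideal.Quotient.isDomain I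
  let f : k →+* L := (algebraMap (MvPolynomial (Fin r) k ⧸ I) L).comp (algebraMap k _)
  have : CharZero L := charZero_of_injective_ringHom f.injective
  let algAM : Algebra (MvPolynomial (Fin r) k ⧸ I) M :=
    ((algebraMap L M).comp (algebraMap (MvPolynomial (Fin r) k ⧸ I) L)).toAlgebra
  have : IsScalarTower (MvPolynomial (Fin r) k ⧸ I) L M := IsScalarTower.of_algebraMap_eq fun _ => rfl
  let algkM : Algebra k M := ((algebraMap (MvPolynomial (Fin r) k ⧸ I) M).comp
    (algebraMap k (MvPolynomial (Fin r) k ⧸ I))).toAlgebra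
  have : @IsScalarTower k (MvPolynomial (Fin r) k ⧸ I) M Algebra.toSMul Algebra.toSMul
      Algebra.toSMul := IsScalarTower.of_algebraMap_eq fun _ => rfl
  let w : Fin r → M := fun i => φ (Ideal.Quotient.mk I (X i))
  have hw : ∀ Q : MvPolynomial (Fin r) k, aeval w Q = φ (Ideal.Quotient.mk I Q) := by
    intro Q
    induction Q using MvPolynomial.induction_on with
    | C a =>
      rw [aeval_C]
      exact (hφk a).symm
    | add p q hp hq => rw [map_add, map_add, map_add, hp, hq]
    | mul_X p i hp => rw [map_mul, map_mul, map_mul, hp, aeval_X]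
  have hPI : P ∉ I := fun h => hx0P (hx0 P h)
  have hadj : IntermediateField.adjoin L (Set.range w) = ⊤ := by
    rw [← top_le_iff, ← hgen, IntermediateField.adjoin_le_iff]
    rintro _ ⟨a, rfl⟩
    obtain ⟨Q, rfl⟩ := Ideal.Quotient.mk_surjective a
    change φ (Ideal.Quotient.mk I Q) ∈ IntermediateField.adjoin L (Set.range w)
    rw [← hw]
    induction Q using MvPolynomial.induction_on with
    | C a =>
      rw [aeval_C]
      exact (IntermediateField.adjoin L (Set.range w)).algebraMap_mem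
        (algebraMap (MvPolynomial (Fin r) k ⧸ I) L (algebraMap k _ a))
    | add p q hp hq =>
      rw [map_add]
      exact add_mem hp hq
    | mul_X p i hp =>
      rw [map_mul, aeval_X]
      exact mul_mem hp (IntermediateField.subset_adjoin _ _ ⟨i, rfl⟩)
  have hwP : aeval w P ≠ 0 := by
    rw [hw]
    intro h
    exact hPI (Ideal.Quotient.eq_zero_iff_mem.1 (hφ (by rw [h, map_zero])))
  obtain ⟨h, hh0, hS⟩ := hCOR k (MvPolynomial (Fin r) k ⧸ I) L M s n r t w P hn hdom hind hfin hadj hwP
  obtain ⟨h', rfl⟩ := Ideal.Quotient.mk_surjective h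
  have hh' : h' ∉ I := fun hc => hh0 (Ideal.Quotient.eq_zero_iff_mem.2 hc)
  obtain ⟨x, hx, hxd, hxh⟩ := hD h' (by
    by_contra hcon
    push Not at hcon
    exact hh' (DDS.mem_of_vanish I hI hcon))
  let K : IntermediateField k (AlgebraicClosure k) := DDS.Fld k x
  have hxK : ∀ i, x i ∈ K := fun i => IntermediateField.subset_adjoin _ _ ⟨i, rfl⟩
  let x' : Fin r → K := fun i => ⟨x i, hxK i⟩
  have hx' : ∀ Q : MvPolynomial (Fin r) k, ((aeval x' Q : K) : AlgebraicClosure k) = aeval x Q := by
    intro Q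
    have h1 := MvPolynomial.aeval_algebraMap_apply (AlgebraicClosure k) x' Q
    exact h1.symm
  let χ : (MvPolynomial (Fin r) k ⧸ I) →ₐ[k] K := Ideal.Quotient.liftₐ I (aeval x') (by
    intro Q hQ
    apply Subtype.ext
    rw [hx' Q]
    exact hx Q hQ)
  have hχ : ∀ Q : MvPolynomial (Fin r) k, χ (Ideal.Quotient.mk I Q) = aeval x' Q := fun Q => rfl
  obtain ⟨M', _, _, _, _, t', w', h1, h2, h3, h4, h5⟩ := hS K χ (by
    rw [hχ]
    intro hc
    apply hxh
    rw [← hx', hc]
    rfl)
  have : FiniteDimensional k K :=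
    IntermediateField.finiteDimensional_adjoin fun y _ => Algebra.IsIntegral.isIntegral y
  obtain ⟨y, hy1, hy2, hy3⟩ := hTRL k K M' r s t' w' n hs hn h1 h3 h2 P h5
  refine ⟨y, fun Q hQ => hy1 Q (h4 Q ?_), ?_, hy2⟩
  · rw [hw, Ideal.Quotient.eq_zero_iff_mem.2 hQ, map_zero]
  · change Module.finrank k (IntermediateField.adjoin k (Set.range y)) = n * d
    rw [hy3, ← hxd]
    rfl

theorem aff (hCOR : CorStmt) : AffStmt := aff_aux DDQ.H55.trl' hCOR

end Pool.Agent.PRP.H95
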